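import Pool.Agent.Lib_MP_50c299_an.Final

/-!
# Relative equilibrium states of Bowen-class potentials are bounded by the class degree
-/

open MeasureTheory Filter Topology

namespace Pool.Agent.Results.MP_50c299_an.ClassDegreeBound

open Pool.Agent.RelEq

/-- Let `X` be a two-sided shift of finite type, `π : X → Y` a factor code, `ν` a fully supported
ergodic measure on `Y` and `f` a function in the Bowen class of `X`.  Then the fibre `π⁻¹{ν}`
contains at most `c_π` (the class degree) ergodic measures which maximise `h_μ(T) + ∫ f dμ` within
the fibre.  (Topological mixing of `X` is not needed.) -/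
theorem result {A B : Type} [Finite A] [TopologicalSpace A] [DiscreteTopology A]
    [MeasurableSpace A] [DiscreteMeasurableSpace A] [Finite B] [TopologicalSpace B]
    [DiscreteTopology B] [MeasurableSpace B] [DiscreteMeasurableSpace B]
    (X : Set (ℤ → A)) (Y : Set (ℤ → B)) (π : (ℤ → A) → (ℤ → B)) (hX : IsSFT X)
    (hπ : IsFactorCode X Y π) (ν : Measure (ℤ → B)) (hν : IsFullErgodic Y ν)
    (f : (ℤ → A) → ℝ) (hf : IsBowen X f) :
    (ergodicMaximizers X π ν f).encard ≤ classDegree X Y π := by
  let _i1 : Fintype A := Fintype.ofFinite A
  let _i2 : Fintype B := Fintype.ofFinite B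
  rcases isEmpty_or_nonempty A with hA | hA
  · have : ergodicMaximizers X π ν f = ∅ := by
      rw [Set.eq_empty_iff_forall_notMem]
      rintro μ ⟨⟨hp, -⟩, -⟩
      have h1 : μ Set.univ = 1 := hp.measure_univ
      have h2 : (Set.univ : Set (ℤ → A)) = ∅ := by
        rw [Set.eq_empty_iff_forall_notMem]
        intro x _
        exact hA.false (x 0)
      rw [h2, measure_empty] at h1
      exact zero_ne_one h1
    rw [this, Set.encard_empty]
    exact bot_le
  · exact encard_le hX hπ hν hf

end Pool.Agent.Results.MP_50c299_an.ClassDegreeBound
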